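import Mathlib
import Pool.Agent.Lib.CX.Main
import Pool.Agent.Lib.CX.BrC
import Pool.Agent.Lib.CX.ShN

/-! Convexity of the atomic ground state energy at closed shells, large nuclear charge. -/

set_option autoImplicit false

open MeasureTheory

namespace Pool.Agent.Results.MP_1b299f_mp.ClosedShells

open Pool.Agent.Lib.CX in
/-- For `n ≥ 1` and `N = 2 (1² + 2² + ⋯ + n²)`: a lower bound for the second difference of the
energy at `N`, for all `Z > 0`, and `2 E(N,Z) ≤ E(N-1,Z) + E(N+1,Z)` if `Z ≥ (4/5) (n (n+1))⁴`. -/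
theorem result :
    ∀ E : ℕ → ℝ → ℝ,
      (∀ (N : ℕ) (Z : ℝ), E N Z = sInf {e : ℝ | ∃ ψ : (Fin N → Fin 2) → EuclideanSpace ℝ (Fin N × Fin 3) → ℂ,
          (∀ s, ContDiff ℝ (⊤ : ℕ∞) (ψ s) ∧ HasCompactSupport (ψ s)) ∧
          (∀ (σ : Equiv.Perm (Fin N)) (s : Fin N → Fin 2) (x : EuclideanSpace ℝ (Fin N × Fin 3)),
            ψ (s ∘ σ) (WithLp.toLp 2 (fun p : Fin N × Fin 3 => WithLp.ofLp x (σ p.1, p.2)))
              = (((Equiv.Perm.sign σ : ℤˣ) : ℤ) : ℂ) * ψ s x) ∧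
          (∑ s, ∫ x, ‖ψ s x‖ ^ 2) = 1 ∧
          e = ∑ s, ∫ x,
            ((∑ j : Fin N × Fin 3, ‖fderiv ℝ (ψ s) x (EuclideanSpace.single j (1 : ℝ))‖ ^ 2)
              + ((∑ i : Fin N, ∑ j : Fin N,
                    if i < j then 1 / Real.sqrt (∑ k : Fin 3, (WithLp.ofLp x (i, k) - WithLp.ofLp x (j, k)) ^ 2) else 0)
                  - ∑ i : Fin N, Z / Real.sqrt (∑ k : Fin 3, (WithLp.ofLp x (i, k)) ^ 2)) * ‖ψ s x‖ ^ 2)}) →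
      ∀ n : ℕ, 1 ≤ n → ∀ N : ℕ, N = 2 * ∑ k ∈ Finset.range n, (k + 1) ^ 2 → ∀ Z : ℝ, 0 < Z →
        2 * E N Z + (Z ^ 2 * ((2 * (n : ℝ) + 1) / (4 * (n : ℝ) ^ 2 * ((n : ℝ) + 1) ^ 2))
            - Z * (((N : ℝ) - 1) * Real.sqrt ((n : ℝ) * N / 2)))
          ≤ E (N - 1) Z + E (N + 1) Z ∧
        (4 / 5 * ((n : ℝ) * (n + 1)) ^ 4 ≤ Z → 2 * E N Z ≤ E (N - 1) Z + E (N + 1) Z) := by
  intro E hE n hn N hN Z hZ
  have key : ∀ N : ℕ, E N Z = Z ^ 2 * eps N (1 / Z) := fun N => (hE N Z).trans (sInf_FSet N hZ)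
  have hN' : N = Sh.NN n := hN
  subst hN'
  have h1 := Sh.second_diff hn (t := 1 / Z) (by positivity)
  have h2 := mul_le_mul_of_nonneg_left h1 (by positivity : 0 ≤ Z ^ 2)
  have h3 : 2 * E (Sh.NN n) Z
      + (Z ^ 2 * ((2 * (n : ℝ) + 1) / (4 * (n : ℝ) ^ 2 * ((n : ℝ) + 1) ^ 2))
        - Z * (((Sh.NN n : ℝ) - 1) * Real.sqrt ((n : ℝ) * Sh.NN n / 2)))
      ≤ E (Sh.NN n - 1) Z + E (Sh.NN n + 1) Z := by
    rw [key, key, key]
    have e1 : Z ^ 2 * (1 / Z * (((Sh.NN n : ℝ) - 1) * Real.sqrt ((n : ℝ) * Sh.NN n / 2)))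
        = Z * (((Sh.NN n : ℝ) - 1) * Real.sqrt ((n : ℝ) * Sh.NN n / 2)) := by
      field_simp
    linarith
  refine ⟨h3, fun hZn => ?_⟩
  have h4 := mul_le_mul_of_nonneg_left (Sh.threshold hn hZn) hZ.le
  linarith

end Pool.Agent.Results.MP_1b299f_mp.ClosedShells
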