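import Mathlib
import Pool.Agent.Lib.CX.Main
import Pool.Agent.Lib.CX.BrC

/-! Convexity of the atomic ground state energy at `N = 2`, all nuclear charges. -/

set_option autoImplicit false

open MeasureTheory

namespace Pool.Agent.Results.MP_1b299f_mp.ConvexAtTwo

open Pool.Agent.Lib.CX in
/-- `2 E(2,Z) ≤ E(1,Z) + E(3,Z)` for every real `Z > 0` -/
theorem result :
    ∀ E : ℕ → ℝ → ℝ,
      (∀ (N : ℕ) (Z : ℝ), E N Z = sInf {e : ℝ | ∃ ψ : (Fin N → Fin 2) → EuclideanSpace ℝ (Fin N × Fin 3) → ℂ,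
          (∀ s, ContDiff ℝ (⊤ : ℕ∞) (ψ s) ∧ HasCompactSupport (ψ s)) ∧
          (∀ (σ : Equiv.Perm (Fin N)) (s : Fin N → Fin 2) (x : EuclideanSpace ℝ (Fin N × Fin 3)),
            ψ (s ∘ σ) (WithLp.toLp 2 (fun p : Fin N × Fin 3 => WithLp.ofLp x (σ p.1, p.2)))
              = (((Equiv.Perm.sign σ : ℤˣ) : ℤ) : ℂ) * ψ s x) ∧
          (∑ s, ∫ x, ‖ψ s x‖ ^ 2) = 1 ∧
          e = ∑ s, ∫ x,
            ((∑ j : Fin N × Fin 3, ‖fderiv ℝ (ψ s) x (EuclideanSpace.single j (1 : ℝ))‖ ^ 2)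
              + ((∑ i : Fin N, ∑ j : Fin N,
                    if i < j then 1 / Real.sqrt (∑ k : Fin 3, (WithLp.ofLp x (i, k) - WithLp.ofLp x (j, k)) ^ 2) else 0)
                  - ∑ i : Fin N, Z / Real.sqrt (∑ k : Fin 3, (WithLp.ofLp x (i, k)) ^ 2)) * ‖ψ s x‖ ^ 2)}) →
      ∀ Z : ℝ, 0 < Z → 2 * E 2 Z ≤ E 1 Z + E 3 Z := by
  intro E hE Z hZ
  have key : ∀ N : ℕ, E N Z = Z ^ 2 * eps N (1 / Z) := fun N => (hE N Z).trans (sInf_FSet N hZ)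
  rw [key 1, key 2, key 3]
  have h := convex_two (t := 1 / Z) (by positivity)
  have h2 := mul_le_mul_of_nonneg_left h (by positivity : 0 ≤ Z ^ 2)
  linarith

end Pool.Agent.Results.MP_1b299f_mp.ConvexAtTwo
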